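import Mathlib

/-!
# The number of tiles in a cube: one cannot take `C(d) = d - 1`

Let `t_{n,d}` be the number of the subsets of `[n]^d` that tile `ℤ^d` by translations. By the start
result `PolynomialCorrection`, `t_{n,d} = O(n^C(d) (3^(1/3))^(n^d))` (Q1, with `C(d) = 16 d 3^d`). Q2
asks whether `C(d) = d - 1` can be taken. It is shown here that this fails for every `d ≥ 3`; every
admissible exponent is at least `d (d - 1) / 2`.

Proof. Let `n = 3 s`. Let `L` be one of the `n^((d-1)(d-2)/2)` sublattices of `ℤ^(d-1)` with a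
triangular basis whose diagonal entries are `n` (`Lat`), so that the cube `[n]^(d-1)` is a fundamental
domain of `L`, and let `g` be a vector with entries between `1` and `n - 1` (`box`). Let `T` be the
lattice generated by `(s, g)` and `0 × L` (`ext s g L`). Every coset of `T` meets the cube `[n]^d` in
exactly three points, `(i, x)`, `(i + s, σ x)`, `(i + 2 s, σ² x)`, where `1 ≤ i ≤ s` and `σ x` is the
representative of `x + g` modulo `L`. The `3^(n^d / 3)` sets which consist of one of the three points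
of each of these cosets (`tile`) tile `ℤ^d` with the complement `T`.

The map `σ` determines `L` and `g` (`distinct`): the first coordinate `x_0 + g_0` is reduced by `n`
for `x_0 = n` but not for `x_0 = 1`; this gives `g_0`, the map `σ` of the next dimension, and the first
vector of the basis of `L`. For two different lattices `T`, `T'` the maps `σ`, `σ'` differ at some `x`,
so that for each `i` the points `(i, x)`, `(i + s, σ x)` are in one coset of `T` and in two cosets of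
`T'`; hence at most the proportion `(8/9)^s` of the tiles of `T'` are tiles of `T` (`card_inter`). As
there are only polynomially many lattices, nearly all these tiles are different, and
`t_{n,d} ≥ (1 - o(1)) (n - 1)^(d-1) n^((d-1)(d-2)/2) 3^(n^d / 3)`.
-/

set_option autoImplicit false

namespace Pool.Agent.Results.MP_13da68_co.ShearedLatticesH15

/-- The finite set `S ⊆ ℤ^d` tiles `ℤ^d` by translations: for some `T ⊆ ℤ^d` every `x ∈ ℤ^d` can be
written in exactly one way as `x = s + t` with `s ∈ S`, `t ∈ T`. -/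
def Tiles {d : ℕ} (S : Finset (Fin d → ℤ)) : Prop :=
  ∃ T : Set (Fin d → ℤ), ∀ x : Fin d → ℤ,
    ∃! p : (Fin d → ℤ) × (Fin d → ℤ), p.1 ∈ S ∧ p.2 ∈ T ∧ x = p.1 + p.2

/-- the cube `[n]^d = {1, …, n}^d` -/
noncomputable def cube (d n : ℕ) : Finset (Fin d → ℤ) := Fintype.piFinset fun _ => Finset.Icc 1 (n : ℤ)

open Classical in
/-- `t_{n,d}`: the number of subsets `S` of `[n]^d` that tile `ℤ^d` by translations -/
noncomputable def t (n d : ℕ) : ℕ := ((cube d n).powerset.filter fun S => Tiles S).card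

theorem mem_cube {d n : ℕ} {m : Fin d → ℤ} : m ∈ cube d n ↔ ∀ i, 1 ≤ m i ∧ m i ≤ n := by
  simp [cube, Fintype.mem_piFinset]

theorem card_cube (d n : ℕ) : (cube d n).card = n ^ d := by
  unfold cube
  rw [Fintype.card_piFinset]
  simp

section lattices

variable {k : ℕ}

/-- the lattice generated by `(m, h)` and `0 × L` -/
def ext (m : ℤ) (h : Fin k → ℤ) (L : AddSubgroup (Fin k → ℤ)) : AddSubgroup (Fin (k + 1) → ℤ) where
  carrier := {x | ∃ j : ℤ, x 0 = j * m ∧ Fin.tail x - j • h ∈ L}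
  zero_mem' := ⟨0, by simp, by
    have : Fin.tail (0 : Fin (k + 1) → ℤ) - (0 : ℤ) • h = 0 := by
      ext i; simp [Fin.tail]
    rw [this]; exact L.zero_mem⟩
  add_mem' := by
    rintro x y ⟨j, h1, h2⟩ ⟨j', h3, h4⟩
    refine ⟨j + j', by simp [h1, h3]; ring, ?_⟩
    have : Fin.tail (x + y) - (j + j') • h = (Fin.tail x - j • h) + (Fin.tail y - j' • h) := by
      ext i; simp [Fin.tail]; ring
    rw [this]; exact L.add_mem h2 h4
  neg_mem' := by
    rintro x ⟨j, h1, h2⟩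
    refine ⟨-j, by simp [h1], ?_⟩
    have : Fin.tail (-x) - (-j) • h = -(Fin.tail x - j • h) := by
      ext i; simp [Fin.tail]; ring
    rw [this]; exact L.neg_mem h2

theorem mem_ext {m : ℤ} {h : Fin k → ℤ} {L : AddSubgroup (Fin k → ℤ)} {x : Fin (k + 1) → ℤ} :
    x ∈ ext m h L ↔ ∃ j : ℤ, x 0 = j * m ∧ Fin.tail x - j • h ∈ L := Iff.rfl

/-- the cube is a fundamental domain of `L` -/
def FD (n : ℕ) (L : AddSubgroup (Fin k → ℤ)) : Prop :=
  ∀ x : Fin k → ℤ, ∃! y, y ∈ cube k n ∧ x - y ∈ L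

open Classical in
/-- the representative of `x` in the cube modulo `L` -/
noncomputable def rep (n : ℕ) (L : AddSubgroup (Fin k → ℤ)) (x : Fin k → ℤ) : Fin k → ℤ :=
  if h : ∃ y, y ∈ cube k n ∧ x - y ∈ L then h.choose else 0

variable {n : ℕ} {L : AddSubgroup (Fin k → ℤ)}

theorem rep_spec (hL : FD n L) (x : Fin k → ℤ) : rep n L x ∈ cube k n ∧ x - rep n L x ∈ L := by
  unfold rep
  rw [dif_pos (hL x).exists]
  exact (hL x).exists.choose_spec

theorem rep_eq (hL : FD n L) {x y : Fin k → ℤ} (hy : y ∈ cube k n) (h : x - y ∈ L) :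
    rep n L x = y :=
  (hL x).unique (rep_spec hL x) ⟨hy, h⟩

theorem rep_congr (hL : FD n L) {x y : Fin k → ℤ} (h : x - y ∈ L) : rep n L x = rep n L y := by
  refine rep_eq hL (rep_spec hL y).1 ?_
  have : x - rep n L y = (x - y) + (y - rep n L y) := by abel
  rw [this]
  exact L.add_mem h (rep_spec hL y).2

theorem sub_mem_of_rep (hL : FD n L) {x y : Fin k → ℤ} (h : rep n L x = rep n L y) : x - y ∈ L := by
  have h1 := (rep_spec hL x).2
  have h2 := (rep_spec hL y).2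
  rw [h] at h1
  have : x - y = (x - rep n L y) - (y - rep n L y) := by abel
  rw [this]
  exact L.sub_mem h1 h2

theorem cons_mem_cube {y0 : ℤ} {y : Fin k → ℤ} :
    (Fin.cons y0 y : Fin (k + 1) → ℤ) ∈ cube (k + 1) n ↔ (1 ≤ y0 ∧ y0 ≤ n) ∧ y ∈ cube k n := by
  rw [mem_cube, mem_cube, Fin.forall_fin_succ]
  simp

/-- the representative modulo an extension -/
theorem rep_ext_aux (hL : FD n L) (h : Fin k → ℤ) (x : Fin (k + 1) → ℤ) (y0 j : ℤ) (hy1 : 1 ≤ y0)
    (hy2 : y0 ≤ n) (hx : x 0 = y0 + j * n) (y : Fin (k + 1) → ℤ) :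
    (y ∈ cube (k + 1) n ∧ x - y ∈ ext n h L) ↔
      y = Fin.cons y0 (rep n L (Fin.tail x - j • h)) := by
  constructor
  · rintro ⟨h1, j', h2, h3⟩
    have h4 : y = Fin.cons (y 0) (Fin.tail y) := (Fin.cons_self_tail y).symm
    rw [h4, cons_mem_cube] at h1
    obtain ⟨⟨h5, h6⟩, h7⟩ := h1
    have h8 : x 0 - y 0 = j' * n := h2
    have h9 : j' = j := by
      have hn0 : (0 : ℤ) < n := by linarith
      have e : (j' - j) * n = y0 - y 0 := by linarith [h8, hx]
      by_contra hne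
      rcases lt_or_gt_of_ne hne with hlt | hgt
      · have : (j' - j) * n ≤ (-1) * n := mul_le_mul_of_nonneg_right (by linarith [Int.add_one_le_iff.2 hlt]) hn0.le
        linarith
      · have : 1 * (n : ℤ) ≤ (j' - j) * n := mul_le_mul_of_nonneg_right (by linarith [Int.add_one_le_iff.2 hgt]) hn0.le
        linarith
    subst h9
    have h10 : y 0 = y0 := by linarith
    rw [h4, h10]
    congr 1
    symm
    apply rep_eq hL h7
    have : Fin.tail x - j' • h - Fin.tail y = Fin.tail (x - y) - j' • h := by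
      ext i; simp [Fin.tail]; ring
    rw [this]; exact h3
  · rintro rfl
    refine ⟨cons_mem_cube.2 ⟨⟨hy1, hy2⟩, (rep_spec hL _).1⟩, j, by simp [hx], ?_⟩
    have := (rep_spec hL (Fin.tail x - j • h)).2
    have e : Fin.tail (x - Fin.cons y0 (rep n L (Fin.tail x - j • h))) - j • h =
        Fin.tail x - j • h - rep n L (Fin.tail x - j • h) := by
      ext i; simp [Fin.tail]; ring
    rw [e]; exact this

theorem exists_div (m : ℤ) (hm : 0 < m) (z : ℤ) : ∃ y j : ℤ, 1 ≤ y ∧ y ≤ m ∧ z = y + j * m := by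
  refine ⟨(z - 1) % m + 1, (z - 1) / m, ?_, ?_, ?_⟩
  · have := Int.emod_nonneg (z - 1) hm.ne'
    linarith
  · have := Int.emod_lt_of_pos (z - 1) hm
    linarith
  · have := Int.emod_add_mul_ediv (z - 1) m
    linarith [mul_comm m ((z - 1) / m)]

theorem FD_ext (hn : 1 ≤ n) (hL : FD n L) (h : Fin k → ℤ) : FD n (ext n h L) := by
  intro x
  obtain ⟨y0, j, h1, h2, h3⟩ := exists_div n (by exact_mod_cast hn) (x 0)
  refine ⟨Fin.cons y0 (rep n L (Fin.tail x - j • h)), ?_, ?_⟩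
  · exact (rep_ext_aux hL h x y0 j h1 h2 h3 _).2 rfl
  · intro y hy
    exact (rep_ext_aux hL h x y0 j h1 h2 h3 y).1 hy

theorem rep_ext (hn : 1 ≤ n) (hL : FD n L) (h : Fin k → ℤ) (x : Fin (k + 1) → ℤ) (y0 j : ℤ)
    (hy1 : 1 ≤ y0) (hy2 : y0 ≤ n) (hx : x 0 = y0 + j * n) :
    rep n (ext n h L) x = Fin.cons y0 (rep n L (Fin.tail x - j • h)) :=
  (rep_ext_aux hL h x y0 j hy1 hy2 hx _).1 (rep_spec (FD_ext hn hL h) x)

end lattices

/-- the lattices `L` with a triangular basis and diagonal entries `n` -/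
noncomputable def Lat (n : ℕ) : (k : ℕ) → Finset (AddSubgroup (Fin k → ℤ))
  | 0 => {⊤}
  | k + 1 => by
    classical exact (Lat n k ×ˢ cube k n).image fun p => ext n p.2 p.1

theorem mem_Lat_succ {n k : ℕ} {L : AddSubgroup (Fin (k + 1) → ℤ)} :
    L ∈ Lat n (k + 1) ↔ ∃ L' ∈ Lat n k, ∃ h ∈ cube k n, L = ext n h L' := by
  classical
  rw [Lat]
  simp only [Finset.mem_image, Finset.mem_product, Prod.exists]
  constructor
  · rintro ⟨a, b, ⟨h1, h2⟩, rfl⟩
    exact ⟨a, h1, b, h2, rfl⟩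
  · rintro ⟨a, h1, b, h2, rfl⟩
    exact ⟨a, b, ⟨h1, h2⟩, rfl⟩

theorem Lat_FD {n : ℕ} (hn : 1 ≤ n) : ∀ {k : ℕ} {L : AddSubgroup (Fin k → ℤ)}, L ∈ Lat n k → FD n L
  | 0, L, hL => by
    rw [Lat, Finset.mem_singleton] at hL
    subst hL
    intro x
    refine ⟨x, ⟨?_, by simp⟩, fun y _ => Subsingleton.elim _ _⟩
    rw [mem_cube]
    intro i
    exact i.elim0
  | k + 1, L, hL => by
    obtain ⟨L', h1, h, h2, rfl⟩ := mem_Lat_succ.1 hL
    exact FD_ext hn (Lat_FD hn h1) h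

theorem ext_inj {n k : ℕ} (hn : 1 ≤ n) {L L' : AddSubgroup (Fin k → ℤ)} (hL : FD n L)
    {h h' : Fin k → ℤ} (hh : h ∈ cube k n) (hh' : h' ∈ cube k n)
    (e : ext (n : ℤ) h L = ext n h' L') : L = L' ∧ h = h' := by
  have hn0 : (n : ℤ) ≠ 0 := by positivity
  have key : ∀ (M : AddSubgroup (Fin k → ℤ)) (u x : Fin k → ℤ),
      (Fin.cons 0 x : Fin (k + 1) → ℤ) ∈ ext (n : ℤ) u M ↔ x ∈ M := by
    intro M u x
    rw [mem_ext]
    constructor
    · rintro ⟨j, h1, h2⟩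
      have h3 : j = 0 := by
        have : (0 : ℤ) = j * n := h1
        rcases mul_eq_zero.1 this.symm with h | h
        · exact h
        · exact absurd h hn0
      subst h3
      simpa using h2
    · intro hx
      exact ⟨0, by simp, by simpa using hx⟩
  have h1 : L = L' := by
    ext x
    rw [← key L h x, ← key L' h' x, e]
  refine ⟨h1, ?_⟩
  subst h1
  have h2 : (Fin.cons (n : ℤ) h : Fin (k + 1) → ℤ) ∈ ext (n : ℤ) h L :=
    ⟨1, by simp, by simp⟩
  rw [e] at h2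
  obtain ⟨j, h3, h4⟩ := h2
  have h5 : j = 1 := by
    have : (n : ℤ) = j * n := h3
    have h6 : (j - 1) * n = 0 := by linarith
    rcases mul_eq_zero.1 h6 with h | h
    · linarith
    · exact absurd h hn0
  subst h5
  have h6 : h - h' ∈ L := by simpa using h4
  have h7 := rep_eq hL hh' h6
  have h8 := rep_eq hL hh (show h - h ∈ L by simp)
  rw [← h7, h8]

theorem card_Lat {n : ℕ} (hn : 1 ≤ n) (k : ℕ) : (Lat n k).card = n ^ (k * (k - 1) / 2) := by
  classical
  rw [← Finset.sum_range_id]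
  induction k with
  | zero => simp [Lat]
  | succ k ih =>
    rw [Lat, Finset.card_image_of_injOn, Finset.card_product, ih, card_cube, Finset.sum_range_succ,
      pow_add]
    rintro ⟨L, h⟩ hp ⟨L', h'⟩ hp' e
    rw [Finset.mem_coe, Finset.mem_product] at hp hp'
    obtain ⟨h1, h2⟩ := ext_inj hn (Lat_FD hn hp.1) hp.2 hp'.2 e
    rw [Prod.mk.injEq]
    exact ⟨h1, h2⟩

/-- the vectors with entries between `1` and `n - 1` -/
noncomputable def box (k n : ℕ) : Finset (Fin k → ℤ) :=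
  Fintype.piFinset fun _ => Finset.Icc 1 ((n : ℤ) - 1)

theorem mem_box {d n : ℕ} {m : Fin d → ℤ} : m ∈ box d n ↔ ∀ i, 1 ≤ m i ∧ m i ≤ (n : ℤ) - 1 := by
  simp [box, Fintype.mem_piFinset]

theorem card_box (d n : ℕ) : (box d n).card = (n - 1) ^ d := by
  unfold box
  rw [Fintype.card_piFinset]
  simp

/-- the partition of the cube determines the lattice -/
theorem distinct {n : ℕ} (hn : 1 ≤ n) : ∀ (k : ℕ) (L L' : AddSubgroup (Fin k → ℤ)) (g g' : Fin k → ℤ),
    L ∈ Lat n k → L' ∈ Lat n k → g ∈ box k n → g' ∈ box k n →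
    (∀ x ∈ cube k n, rep n L (x + g) = rep n L' (x + g')) → L = L' ∧ g = g'
  | 0, L, L', g, g', hL, hL', _, _, _ => by
    rw [Lat, Finset.mem_singleton] at hL hL'
    exact ⟨hL.trans hL'.symm, Subsingleton.elim _ _⟩
  | k + 1, L, L', g, g', hL, hL', hg, hg', hx => by
    obtain ⟨L, h1, h, h2, rfl⟩ := mem_Lat_succ.1 hL
    obtain ⟨L', h1', h', h2', rfl⟩ := mem_Lat_succ.1 hL'
    have hF := Lat_FD hn h1
    have hF' := Lat_FD hn h1'
    have hg0 := mem_box.1 hg 0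
    have hg0' := mem_box.1 hg' 0
    have hn' : (1 : ℤ) ≤ n := by exact_mod_cast hn
    -- the first layer
    have e1 : ∀ (M : AddSubgroup (Fin k → ℤ)) (hM : FD n M) (u : Fin k → ℤ) (v : Fin (k + 1) → ℤ)
        (hv : 1 ≤ v 0 ∧ v 0 ≤ (n : ℤ) - 1) (x : Fin k → ℤ),
        rep n (ext n u M) ((Fin.cons 1 x : Fin (k + 1) → ℤ) + v) =
          Fin.cons (1 + v 0) (rep n M (x + Fin.tail v)) := by
      intro M hM u v hv x
      rw [rep_ext hn hM u _ (1 + v 0) 0 (by linarith [hv.1]) (by linarith [hv.2]) (by simp)]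
      congr 2
      ext i
      simp [Fin.tail]
    have e2 : ∀ (M : AddSubgroup (Fin k → ℤ)) (hM : FD n M) (u : Fin k → ℤ) (v : Fin (k + 1) → ℤ)
        (hv : 1 ≤ v 0 ∧ v 0 ≤ (n : ℤ) - 1) (x : Fin k → ℤ),
        rep n (ext n u M) ((Fin.cons (n : ℤ) x : Fin (k + 1) → ℤ) + v) =
          Fin.cons (v 0) (rep n M (x + Fin.tail v - u)) := by
      intro M hM u v hv x
      rw [rep_ext hn hM u _ (v 0) 1 hv.1 (by linarith [hv.2]) (by simp; ring)]
      congr 2
      ext i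
      simp [Fin.tail]
    have h3 : ∀ x ∈ cube k n, g 0 = g' 0 ∧
        rep n L (x + Fin.tail g) = rep n L' (x + Fin.tail g') := by
      intro x hxc
      have := hx (Fin.cons 1 x) (cons_mem_cube.2 ⟨⟨le_rfl, hn'⟩, hxc⟩)
      rw [e1 L hF h g hg0 x, e1 L' hF' h' g' hg0' x, Fin.cons_inj] at this
      exact ⟨by linarith [this.1], this.2⟩
    have hone : (fun _ => 1 : Fin k → ℤ) ∈ cube k n := mem_cube.2 fun _ => ⟨le_rfl, hn'⟩
    obtain ⟨h4, h5⟩ := distinct hn k L L' (Fin.tail g) (Fin.tail g') h1 h1'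
      (mem_box.2 fun i => mem_box.1 hg i.succ) (mem_box.2 fun i => mem_box.1 hg' i.succ)
      fun x hxc => (h3 x hxc).2
    subst h4
    have h6 := hx (Fin.cons (n : ℤ) fun _ => 1) (cons_mem_cube.2 ⟨⟨hn', le_rfl⟩, hone⟩)
    rw [e2 L hF h g hg0, e2 L hF h' g' hg0', Fin.cons_inj, h5] at h6
    have h7 := sub_mem_of_rep hF h6.2
    have h8 : h' - h ∈ L := by
      have : ((fun _ => 1) + Fin.tail g' - h) - ((fun _ => 1) + Fin.tail g' - h') = h' - h := by abel
      rwa [this] at h7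
    have h9 : h' = h := by
      have a1 := rep_eq hF h2 h8
      have a2 := rep_eq hF h2' (show h' - h' ∈ L by simp)
      rw [← a1, a2]
    subst h9
    refine ⟨rfl, ?_⟩
    rw [← Fin.cons_self_tail g, ← Fin.cons_self_tail g', h5, h6.1]

section tiles

variable {k : ℕ} {n : ℕ} {L : AddSubgroup (Fin k → ℤ)}

/-- the points of the class of `(i + 1, x)` modulo the lattice generated by `(s, g)` and `0 × L` -/
noncomputable def pt (n s : ℕ) (L : AddSubgroup (Fin k → ℤ)) (g : Fin k → ℤ) (i : Fin s)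
    (x : Fin k → ℤ) (e : Fin 3) : Fin (k + 1) → ℤ :=
  Fin.cons (((i : ℕ) : ℤ) + 1 + ((e : ℕ) : ℤ) * s) (rep n L (x + ((e : ℕ) : ℤ) • g))

/-- the tile given by the choice `c` of a point in each class -/
noncomputable def tile (n s : ℕ) (L : AddSubgroup (Fin k → ℤ)) (g : Fin k → ℤ)
    (c : Fin s → cube k n → Fin 3) : Finset (Fin (k + 1) → ℤ) := by
  classical exact Finset.univ.image fun p : Fin s × cube k n => pt n s L g p.1 p.2 (c p.1 p.2)

theorem mem_tile {s : ℕ} {g : Fin k → ℤ} {c : Fin s → cube k n → Fin 3} {z : Fin (k + 1) → ℤ} :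
    z ∈ tile n s L g c ↔ ∃ (i : Fin s) (x : cube k n), pt n s L g i x (c i x) = z := by
  classical
  simp [tile]

theorem tile_sub {s : ℕ} (hn : n = 3 * s) (hL : FD n L) (g : Fin k → ℤ)
    (c : Fin s → cube k n → Fin 3) : tile n s L g c ⊆ cube (k + 1) n := by
  intro z hz
  obtain ⟨i, x, rfl⟩ := mem_tile.1 hz
  refine cons_mem_cube.2 ⟨?_, (rep_spec hL _).1⟩
  have h1 := i.2
  have h2 := (c i x).2
  have h3 : ((c i x : ℕ) : ℤ) * s ≤ 2 * s :=
    mul_le_mul_of_nonneg_right (by exact_mod_cast Nat.lt_succ_iff.1 h2) (by positivity)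
  have h4 : (0 : ℤ) ≤ ((c i x : ℕ) : ℤ) * s := by positivity
  have h5 : ((i : ℕ) : ℤ) + 1 ≤ s := by exact_mod_cast h1
  have h6 : (0 : ℤ) ≤ ((i : ℕ) : ℤ) := by positivity
  constructor
  · linarith
  · rw [hn]; push_cast; linarith

/-- `i + a s = i' + a' s` with `0 ≤ i, i' < s` -/
theorem uniq_div {s : ℕ} {i i' : Fin s} {a a' : ℤ}
    (h : ((i : ℕ) : ℤ) + a * s = ((i' : ℕ) : ℤ) + a' * s) : i = i' ∧ a = a' := by
  have h1 : ((i : ℕ) : ℤ) < s := by exact_mod_cast i.2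
  have h2 : ((i' : ℕ) : ℤ) < s := by exact_mod_cast i'.2
  have h3 : (0 : ℤ) ≤ ((i : ℕ) : ℤ) := by positivity
  have h4 : (0 : ℤ) ≤ ((i' : ℕ) : ℤ) := by positivity
  have h5 : (s : ℤ) ≠ 0 := by
    intro h0
    rw [h0] at h1
    linarith
  have e1 : (((i : ℕ) : ℤ) + a * s) % s = i := by
    rw [Int.add_mul_emod_self_right, Int.emod_eq_of_lt h3 h1]
  have e2 : (((i' : ℕ) : ℤ) + a' * s) % s = i' := by
    rw [Int.add_mul_emod_self_right, Int.emod_eq_of_lt h4 h2]
  have e3 : ((i : ℕ) : ℤ) = i' := by rw [← e1, ← e2, h]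
  refine ⟨Fin.ext (by exact_mod_cast e3), ?_⟩
  have e4 : a * s = a' * s := by linarith
  exact mul_right_cancel₀ h5 e4

theorem tile_compl {s : ℕ} (hs : 0 < s) (hL : FD n L) (g : Fin k → ℤ)
    (c : Fin s → cube k n → Fin 3) (z : Fin (k + 1) → ℤ) :
    ∃! y, y ∈ tile n s L g c ∧ z - y ∈ ext s g L := by
  have hs' : (0 : ℤ) < s := by exact_mod_cast hs
  obtain ⟨i', a, h1, h2, h3⟩ := exists_div s hs' (z 0)
  obtain ⟨i, hi⟩ : ∃ i : Fin s, ((i : ℕ) : ℤ) + 1 = i' := by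
    refine ⟨⟨(i' - 1).toNat, ?_⟩, ?_⟩
    · have : ((i' - 1).toNat : ℤ) = i' - 1 := Int.toNat_of_nonneg (by linarith)
      have h4 : ((i' - 1).toNat : ℤ) < s := by linarith
      exact_mod_cast h4
    · have : ((i' - 1).toNat : ℤ) = i' - 1 := Int.toNat_of_nonneg (by linarith)
      show ((i' - 1).toNat : ℤ) + 1 = i'
      linarith
  have hz0 : z 0 = ((i : ℕ) : ℤ) + 1 + a * s := by rw [hi, h3]
  set w := Fin.tail z - a • g with hw
  set x : cube k n := ⟨rep n L w, (rep_spec hL w).1⟩ with hx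
  have hwx : w - (x : Fin k → ℤ) ∈ L := (rep_spec hL w).2
  refine ⟨pt n s L g i x (c i x), ⟨mem_tile.2 ⟨i, x, rfl⟩, a - ((c i x : ℕ) : ℤ), ?_, ?_⟩, ?_⟩
  · simp only [pt, Pi.sub_apply, Fin.cons_zero, hz0]
    ring
  · have h5 := (rep_spec hL ((x : Fin k → ℤ) + ((c i x : ℕ) : ℤ) • g)).2
    have e : Fin.tail (z - pt n s L g i x (c i x)) - (a - ((c i x : ℕ) : ℤ)) • g =
        (w - (x : Fin k → ℤ)) + ((x : Fin k → ℤ) + ((c i x : ℕ) : ℤ) • g -
          rep n L ((x : Fin k → ℤ) + ((c i x : ℕ) : ℤ) • g)) := by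
      ext l
      simp [pt, hw, Fin.tail]
      ring
    rw [e]
    exact L.add_mem hwx h5
  · rintro y ⟨hy, j, hj1, hj2⟩
    obtain ⟨i2, x2, rfl⟩ := mem_tile.1 hy
    simp only [pt, Pi.sub_apply, Fin.cons_zero, hz0] at hj1
    have h6 : ((i2 : ℕ) : ℤ) + (j + ((c i2 x2 : ℕ) : ℤ)) * s = ((i : ℕ) : ℤ) + a * s := by
      linarith
    obtain ⟨h7, h8⟩ := uniq_div h6
    subst h7
    have h9 : w - (x2 : Fin k → ℤ) ∈ L := by
      have h5 := (rep_spec hL ((x2 : Fin k → ℤ) + ((c i2 x2 : ℕ) : ℤ) • g)).2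
      have e : w - (x2 : Fin k → ℤ) = (Fin.tail (z - pt n s L g i2 x2 (c i2 x2)) - j • g) -
          ((x2 : Fin k → ℤ) + ((c i2 x2 : ℕ) : ℤ) • g -
          rep n L ((x2 : Fin k → ℤ) + ((c i2 x2 : ℕ) : ℤ) • g)) := by
        ext l
        simp [pt, hw, Fin.tail, ← h8]
        ring
      rw [e]
      exact L.sub_mem hj2 h5
    have h10 : x2 = x := Subtype.ext ((rep_eq hL x2.2 h9).symm)
    rw [h10]

theorem tiles_tile {s : ℕ} (hs : 0 < s) (hL : FD n L) (g : Fin k → ℤ)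
    (c : Fin s → cube k n → Fin 3) : Tiles (tile n s L g c) := by
  refine ⟨ext s g L, fun z => ?_⟩
  obtain ⟨y, ⟨h1, h2⟩, h3⟩ := tile_compl hs hL g c z
  refine ⟨(y, z - y), ⟨h1, h2, by simp⟩, ?_⟩
  rintro ⟨y', u⟩ ⟨h4, h5, h6⟩
  have h4 : y' ∈ tile n s L g c := h4
  have h5 : u ∈ ext s g L := h5
  have h6 : z = y' + u := h6
  have h7 : u = z - y' := by rw [h6]; simp
  have h8 : y' = y := h3 y' ⟨h4, by rw [← h7]; exact h5⟩
  rw [h7, h8]

theorem pt_inj {s : ℕ} (hL : FD n L) {g : Fin k → ℤ} {i i' : Fin s} {x x' : cube k n}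
    {e e' : Fin 3} (h : pt n s L g i x e = pt n s L g i' x' e') : i = i' ∧ x = x' ∧ e = e' := by
  unfold pt at h
  rw [Fin.cons_inj] at h
  obtain ⟨h1, h2⟩ := uniq_div (show ((i : ℕ) : ℤ) + ((e : ℕ) : ℤ) * s =
    ((i' : ℕ) : ℤ) + ((e' : ℕ) : ℤ) * s by linarith [h.1])
  have h3 : e = e' := Fin.ext (by exact_mod_cast h2)
  subst h3
  have h4 := sub_mem_of_rep hL h.2
  have h5 : (x : Fin k → ℤ) - x' ∈ L := by
    have : (x : Fin k → ℤ) + ((e : ℕ) : ℤ) • g - ((x' : Fin k → ℤ) + ((e : ℕ) : ℤ) • g) = x - x' := by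
      abel
    rwa [this] at h4
  have h6 := rep_eq hL x'.2 h5
  have h7 := rep_eq hL x.2 (show (x : Fin k → ℤ) - x ∈ L by simp)
  exact ⟨h1, Subtype.ext (by rw [← h7, h6]), rfl⟩

theorem tile_inj {s : ℕ} (hL : FD n L) (g : Fin k → ℤ) :
    Function.Injective (tile n s L g : (Fin s → cube k n → Fin 3) → _) := by
  intro c c' h
  funext i x
  have h1 : pt n s L g i x (c i x) ∈ tile n s L g c' := by
    rw [← h]
    exact mem_tile.2 ⟨i, x, rfl⟩
  obtain ⟨i', x', h2⟩ := mem_tile.1 h1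
  obtain ⟨h3, h4, h5⟩ := pt_inj hL h2
  rw [← h5, h3, h4]

/-- the tiles belonging to one lattice -/
noncomputable def fam (n s : ℕ) (p : AddSubgroup (Fin k → ℤ) × (Fin k → ℤ)) :
    Finset (Finset (Fin (k + 1) → ℤ)) := by
  classical exact Finset.univ.image (tile n s p.1 p.2)

theorem card_fam {s : ℕ} (p : AddSubgroup (Fin k → ℤ) × (Fin k → ℤ)) (hL : FD n p.1) :
    (fam n s p).card = (3 ^ n ^ k) ^ s := by
  classical
  unfold fam
  rw [Finset.card_image_of_injective _ (tile_inj hL p.2)]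
  simp [card_cube]

/-- the number of maps avoiding a pattern -/
theorem card_avoid {X : Type} [Fintype X] [DecidableEq X] {a b : X} (hab : a ≠ b) :
    9 * (Finset.univ.filter fun f : X → Fin 3 => ¬ (f a = 0 ∧ f b = 1)).card ≤
      8 * 3 ^ Fintype.card X := by
  have h1 : (Finset.univ.filter fun f : X → Fin 3 => (f a = 0 ∧ f b = 1)).card +
      (Finset.univ.filter fun f : X → Fin 3 => ¬ (f a = 0 ∧ f b = 1)).card =
      3 ^ Fintype.card X := by
    rw [Finset.card_filter_add_card_filter_not]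
    simp
  have h2 : 3 ^ Fintype.card X ≤
      9 * (Finset.univ.filter fun f : X → Fin 3 => (f a = 0 ∧ f b = 1)).card := by
    have h3 : (Finset.univ : Finset (X → Fin 3)) ⊆
        ((Finset.univ.filter fun f : X → Fin 3 => (f a = 0 ∧ f b = 1)) ×ˢ
          (Finset.univ : Finset (Fin 3 × Fin 3))).image
          (fun p => Function.update (Function.update p.1 a p.2.1) b p.2.2) := by
      intro f _
      rw [Finset.mem_image]
      refine ⟨(Function.update (Function.update f a 0) b 1, (f a, f b)), ?_, ?_⟩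
      · simp [hab]
      · funext x
        by_cases hb : x = b
        · subst hb; simp
        · by_cases ha : x = a
          · subst ha; simp [hb]
          · simp [ha, hb]
    have h4 := (Finset.card_le_card h3).trans Finset.card_image_le
    rw [Finset.card_product] at h4
    simp at h4
    linarith
  omega

/-- two different lattices have few tiles in common -/
theorem card_inter {s : ℕ} (hn1 : 1 ≤ n) (hs : 0 < s) (p q : AddSubgroup (Fin k → ℤ) × (Fin k → ℤ))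
    (hp : p ∈ Lat n k ×ˢ box k n) (hq : q ∈ Lat n k ×ˢ box k n) (hpq : p ≠ q) :
    9 ^ s * (fam n s p ∩ fam n s q).card ≤ (8 * 3 ^ n ^ k) ^ s := by
  classical
  obtain ⟨L, g⟩ := p
  obtain ⟨L', g'⟩ := q
  rw [Finset.mem_product] at hp hq
  have hF := Lat_FD hn1 hp.1
  have hF' := Lat_FD hn1 hq.1
  obtain ⟨x, hx, hne⟩ : ∃ x ∈ cube k n, rep n L (x + g) ≠ rep n L' (x + g') := by
    by_contra hcon
    push Not at hcon
    obtain ⟨e1, e2⟩ := distinct hn1 k L L' g g' hp.1 hq.1 hp.2 hq.2 hcon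
    exact hpq (by rw [e1, e2])
  have hF : FD n L := hF
  have hF' : FD n L' := hF'
  set y := rep n L (x + g) with hy
  obtain ⟨hy1, hy2⟩ := rep_spec hF (x + g)
  rw [← hy] at hy1 hy2
  set x2 := rep n L' (y - g') with hx2
  obtain ⟨hx3, hx4⟩ := rep_spec hF' (y - g')
  rw [← hx2] at hx3 hx4
  have hx5 : rep n L' (x2 + g') = y := by
    apply rep_eq hF' hy1
    have : x2 + g' - y = -(y - g' - x2) := by abel
    rw [this]
    exact L'.neg_mem hx4
  have hx6 : (⟨x, hx⟩ : cube k n) ≠ ⟨x2, hx3⟩ := by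
    intro h
    have : x = x2 := congrArg Subtype.val h
    rw [this] at hne
    exact hne.symm hx5
  set B := Finset.univ.filter fun f : cube k n → Fin 3 => ¬ (f ⟨x, hx⟩ = 0 ∧ f ⟨x2, hx3⟩ = 1) with hB
  have h1 : fam n s (L, g) ∩ fam n s (L', g') ⊆
      (Fintype.piFinset fun _ : Fin s => B).image (tile n s L' g') := by
    intro S hS
    rw [Finset.mem_inter] at hS
    obtain ⟨hS1, hS2⟩ := hS
    unfold fam at hS1 hS2
    rw [Finset.mem_image] at hS1 hS2 ⊢
    obtain ⟨c, -, hc⟩ := hS1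
    obtain ⟨c', -, hc'⟩ := hS2
    refine ⟨c', ?_, hc'⟩
    rw [Fintype.mem_piFinset]
    intro i
    rw [hB, Finset.mem_filter]
    refine ⟨Finset.mem_univ _, ?_⟩
    rintro ⟨h2, h3⟩
    have h4 : (Fin.cons (((i : ℕ) : ℤ) + 1) x : Fin (k + 1) → ℤ) ∈ S := by
      rw [← hc']
      refine mem_tile.2 ⟨i, ⟨x, hx⟩, ?_⟩
      rw [h2]
      unfold pt
      have e : rep n L' (x + (((0 : Fin 3) : ℕ) : ℤ) • g') = x := by
        apply rep_eq hF' hx
        simp
      show (Fin.cons _ (rep n L' (x + (((0 : Fin 3) : ℕ) : ℤ) • g')) : Fin (k + 1) → ℤ) = _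
      rw [e]
      simp
    have h5 : (Fin.cons (((i : ℕ) : ℤ) + 1 + s) y : Fin (k + 1) → ℤ) ∈ S := by
      rw [← hc']
      refine mem_tile.2 ⟨i, ⟨x2, hx3⟩, ?_⟩
      rw [h3]
      unfold pt
      have e : rep n L' (x2 + (((1 : Fin 3) : ℕ) : ℤ) • g') = y := by
        rw [← hx5]
        congr 2
        simp
      show (Fin.cons _ (rep n L' (x2 + (((1 : Fin 3) : ℕ) : ℤ) • g')) : Fin (k + 1) → ℤ) = _
      rw [e]
      simp
    rw [← hc] at h4 h5
    have h6 := (tile_compl hs hF g c (Fin.cons (((i : ℕ) : ℤ) + 1 + s) y)).unique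
      ⟨h4, 1, by simp, by
        have e : Fin.tail ((Fin.cons (((i : ℕ) : ℤ) + 1 + s) y : Fin (k + 1) → ℤ) -
            Fin.cons (((i : ℕ) : ℤ) + 1) x) - (1 : ℤ) • g = -(x + g - y) := by
          ext l; simp [Fin.tail]; ring
        rw [e]
        exact L.neg_mem hy2⟩
      ⟨h5, by
        have e : (Fin.cons (((i : ℕ) : ℤ) + 1 + s) y : Fin (k + 1) → ℤ) -
            Fin.cons (((i : ℕ) : ℤ) + 1 + s) y = 0 := by simp
        rw [e]
        exact AddSubgroup.zero_mem _⟩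
    have h7 := congrFun h6 0
    simp at h7
    omega
  have h2 := (Finset.card_le_card h1).trans Finset.card_image_le
  rw [Fintype.card_piFinset] at h2
  simp only [Finset.prod_const, Finset.card_univ, Fintype.card_fin] at h2
  have h3 := card_avoid hx6
  rw [← hB] at h3
  have h4 : Fintype.card (cube k n) = n ^ k := by simp [card_cube]
  rw [h4] at h3
  calc 9 ^ s * (fam n s (L, g) ∩ fam n s (L', g')).card ≤ 9 ^ s * B.card ^ s :=
        Nat.mul_le_mul_left _ h2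
    _ = (9 * B.card) ^ s := by rw [mul_pow]
    _ ≤ (8 * 3 ^ n ^ k) ^ s := Nat.pow_le_pow_left h3 s

/-- a union of nearly disjoint sets is large -/
theorem union_large {ι α : Type} [DecidableEq ι] [DecidableEq α] (F : ι → Finset α) (a b : ℝ)
    (hb : 0 ≤ b) (Θ : Finset ι) (h1 : ∀ i ∈ Θ, a ≤ (F i).card)
    (h2 : ∀ i ∈ Θ, ∀ j ∈ Θ, i ≠ j → ((F i ∩ F j).card : ℝ) ≤ b) :
    Θ.card * a ≤ ((Θ.biUnion F).card : ℝ) + (Θ.card : ℝ) ^ 2 * b := by
  induction Θ using Finset.induction_on with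
  | empty => simp
  | insert i Θ hi ih =>
    have ih' := ih (fun j hj => h1 j (Finset.mem_insert_of_mem hj))
      (fun j hj l hl => h2 j (Finset.mem_insert_of_mem hj) l (Finset.mem_insert_of_mem hl))
    rw [Finset.card_insert_of_notMem hi, Finset.biUnion_insert]
    have h3 : ((F i ∪ Θ.biUnion F).card : ℝ) + ((F i ∩ Θ.biUnion F).card : ℝ) =
        (F i).card + (Θ.biUnion F).card := by
      exact_mod_cast Finset.card_union_add_card_inter (F i) (Θ.biUnion F)
    have h4 : ((F i ∩ Θ.biUnion F).card : ℝ) ≤ Θ.card * b := by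
      rw [Finset.inter_biUnion]
      calc (((Θ.biUnion fun j => F i ∩ F j).card : ℕ) : ℝ) ≤ ((∑ j ∈ Θ, (F i ∩ F j).card : ℕ) : ℝ) := by
            exact_mod_cast Finset.card_biUnion_le
        _ = ∑ j ∈ Θ, ((F i ∩ F j).card : ℝ) := by push_cast; rfl
        _ ≤ ∑ j ∈ Θ, b := by
            apply Finset.sum_le_sum
            intro j hj
            refine h2 i (Finset.mem_insert_self _ _) j (Finset.mem_insert_of_mem hj) ?_
            rintro rfl
            exact hi hj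
        _ = Θ.card * b := by simp
    have h5 := h1 i (Finset.mem_insert_self _ _)
    push_cast
    nlinarith [mul_nonneg (Nat.cast_nonneg (α := ℝ) Θ.card) hb]

/-- the lower bound for the number of tiles -/
theorem lower {s k : ℕ} (hs : 0 < s) :
    (((3 * s - 1) ^ k * (3 * s) ^ (k * (k - 1) / 2) : ℕ) : ℝ) * (3 ^ (3 * s) ^ k) ^ s ≤
      t (3 * s) (k + 1) + (((3 * s - 1) ^ k * (3 * s) ^ (k * (k - 1) / 2) : ℕ) : ℝ) ^ 2 *
        ((8 / 9 * 3 ^ (3 * s) ^ k) ^ s) := by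
  classical
  set n := 3 * s with hn
  have hn1 : 1 ≤ n := by omega
  set Θ := Lat n k ×ˢ box k n with hΘ
  have hcard : Θ.card = (n - 1) ^ k * n ^ (k * (k - 1) / 2) := by
    rw [hΘ, Finset.card_product, card_Lat hn1, card_box, mul_comm]
  have h := union_large (fam n s) ((3 ^ n ^ k : ℝ) ^ s) ((8 / 9 * 3 ^ n ^ k) ^ s) (by positivity) Θ
    (by
      intro p hp
      rw [card_fam p (Lat_FD hn1 (Finset.mem_product.1 hp).1)]
      push_cast
      exact le_rfl)
    (by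
      intro p hp q hq hpq
      have h1 := card_inter hn1 hs p q hp hq hpq
      have h2 : (9 : ℝ) ^ s * ((fam n s p ∩ fam n s q).card : ℝ) ≤ (8 * 3 ^ n ^ k) ^ s := by
        exact_mod_cast h1
      have h3 : ((8 / 9 * 3 ^ n ^ k) ^ s : ℝ) = (8 * 3 ^ n ^ k) ^ s / 9 ^ s := by
        rw [← div_pow]; congr 1; ring
      rw [h3, le_div_iff₀ (by positivity)]
      linarith)
  rw [hcard] at h
  refine h.trans ?_
  have h4 : (Θ.biUnion (fam n s)).card ≤ t n (k + 1) := by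
    unfold t
    apply Finset.card_le_card
    intro S hS
    rw [Finset.mem_biUnion] at hS
    obtain ⟨p, hp, hS⟩ := hS
    unfold fam at hS
    rw [Finset.mem_image] at hS
    obtain ⟨c, -, rfl⟩ := hS
    have hF := Lat_FD hn1 (Finset.mem_product.1 hp).1
    rw [Finset.mem_filter, Finset.mem_powerset]
    exact ⟨tile_sub hn hF _ _, tiles_tile hs hF _ _⟩
  have h5 : ((Θ.biUnion (fam n s)).card : ℝ) ≤ t n (k + 1) := by exact_mod_cast h4
  linarith

end tiles

section asymptotics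

open Filter Topology

theorem root_pow (m : ℕ) : ((3 : ℝ) ^ ((1 : ℝ) / 3)) ^ (3 * m) = 3 ^ m := by
  rw [pow_mul]
  congr 1
  rw [← Real.rpow_natCast, ← Real.rpow_mul (by norm_num)]
  norm_num

theorem lower' (d : ℕ) (hd : 1 ≤ d) : ∀ᶠ s : ℕ in atTop,
    ((3 * s : ℕ) : ℝ) ^ (d * (d - 1) / 2) * ((3 : ℝ) ^ ((1 : ℝ) / 3)) ^ (3 * s) ^ d ≤
      2 ^ d * t (3 * s) d := by
  obtain ⟨k, rfl⟩ : ∃ k, d = k + 1 := ⟨d - 1, by omega⟩
  set e := (k + 1) * (k + 1 - 1) / 2 with he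
  have he' : e = k + k * (k - 1) / 2 := by
    rw [he, ← Finset.sum_range_id, ← Finset.sum_range_id, Finset.sum_range_succ, add_comm]
  have hlim : Tendsto (fun s : ℕ => (3 : ℝ) ^ e * ((s : ℝ) ^ e * (8 / 9 : ℝ) ^ s)) atTop (𝓝 0) := by
    have := tendsto_pow_const_mul_const_pow_of_abs_lt_one e
      (show |(8 / 9 : ℝ)| < 1 by rw [abs_of_pos (by norm_num)]; norm_num)
    simpa using this.const_mul ((3 : ℝ) ^ e)
  have hev := hlim.eventually (gt_mem_nhds (show (0 : ℝ) < 1 / 2 by norm_num))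
  filter_upwards [hev, eventually_ge_atTop 1] with s h1 hs
  have hlow := lower (s := s) (k := k) hs
  set n := 3 * s with hn
  set A : ℝ := (((n - 1) ^ k * n ^ (k * (k - 1) / 2) : ℕ) : ℝ) with hA
  have hn3 : 3 ≤ n := by omega
  have hcast : ((n - 1 : ℕ) : ℝ) = (n : ℝ) - 1 := by
    rw [Nat.cast_sub (by omega)]
    simp
  have hnR : (3 : ℝ) ≤ n := by exact_mod_cast hn3
  have hAe : A = ((n : ℝ) - 1) ^ k * (n : ℝ) ^ (k * (k - 1) / 2) := by
    rw [hA]
    push_cast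
    rw [hcast]
  have hA1 : A ≤ (n : ℝ) ^ e := by
    rw [hAe, he', pow_add]
    apply mul_le_mul_of_nonneg_right _ (by positivity)
    apply pow_le_pow_left₀ (by linarith)
    linarith
  have hA2 : (n : ℝ) ^ e ≤ 2 ^ k * A := by
    rw [hAe, he', pow_add, ← mul_assoc, ← mul_pow]
    apply mul_le_mul_of_nonneg_right _ (by positivity)
    apply pow_le_pow_left₀ (by positivity)
    linarith
  have hA0 : 0 ≤ A := by rw [hA]; positivity
  set M : ℝ := (3 ^ n ^ k) ^ s with hM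
  have hM0 : 0 < M := by positivity
  have hM1 : ((3 : ℝ) ^ ((1 : ℝ) / 3)) ^ n ^ (k + 1) = M := by
    have : n ^ (k + 1) = 3 * (n ^ k * s) := by
      rw [pow_succ]
      nth_rewrite 2 [hn]
      ring
    rw [this, root_pow, hM, ← pow_mul]
  have hb : ((8 / 9 * 3 ^ n ^ k) ^ s : ℝ) = (8 / 9) ^ s * M := by
    rw [mul_pow]
  rw [hb] at hlow
  have h2 : A * (8 / 9 : ℝ) ^ s ≤ 1 / 2 := by
    have e1 : (n : ℝ) ^ e = 3 ^ e * (s : ℝ) ^ e := by
      rw [hn]; push_cast; rw [mul_pow]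
    calc A * (8 / 9 : ℝ) ^ s ≤ (n : ℝ) ^ e * (8 / 9 : ℝ) ^ s :=
          mul_le_mul_of_nonneg_right hA1 (by positivity)
      _ = 3 ^ e * ((s : ℝ) ^ e * (8 / 9 : ℝ) ^ s) := by rw [e1]; ring
      _ ≤ 1 / 2 := h1.le
  have h3 : A ^ 2 * ((8 / 9 : ℝ) ^ s * M) ≤ 1 / 2 * (A * M) := by
    calc A ^ 2 * ((8 / 9 : ℝ) ^ s * M) = (A * (8 / 9 : ℝ) ^ s) * (A * M) := by ring
      _ ≤ 1 / 2 * (A * M) := mul_le_mul_of_nonneg_right h2 (by positivity)
  have h4 : A * M ≤ 2 * t n (k + 1) := by linarith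
  rw [hM1]
  calc (n : ℝ) ^ e * M ≤ 2 ^ k * A * M := mul_le_mul_of_nonneg_right hA2 hM0.le
    _ = 2 ^ k * (A * M) := by ring
    _ ≤ 2 ^ k * (2 * t n (k + 1)) := mul_le_mul_of_nonneg_left h4 (by positivity)
    _ = 2 ^ (k + 1) * t n (k + 1) := by ring

theorem not_bound (d : ℕ) (hd : 1 ≤ d) (C : ℝ) (hC : C < d * (d - 1) / 2) :
    ¬ ∃ (K : ℝ) (N : ℕ), ∀ n : ℕ, N ≤ n →
      (t n d : ℝ) ≤ K * (n : ℝ) ^ C * ((3 : ℝ) ^ ((1 : ℝ) / 3)) ^ n ^ d := by
  rintro ⟨K, N, hK⟩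
  have he : (((d * (d - 1) / 2 : ℕ)) : ℝ) = d * (d - 1) / 2 := by
    have h1 := Finset.sum_range_id_mul_two d
    have h2 := Finset.sum_range_id d
    rw [← h2]
    have h3 : (((∑ i ∈ Finset.range d, i) * 2 : ℕ) : ℝ) = ((d * (d - 1) : ℕ) : ℝ) := by
      exact_mod_cast h1
    rw [Nat.cast_mul, Nat.cast_mul, Nat.cast_sub hd] at h3
    push_cast at h3 ⊢
    linarith
  set e := d * (d - 1) / 2 with hedef
  have hpos : 0 < (e : ℝ) - C := by rw [he]; linarith
  have hlim : Tendsto (fun s : ℕ => (((3 * s : ℕ) : ℝ)) ^ ((e : ℝ) - C)) atTop atTop := by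
    have h1 := tendsto_rpow_atTop hpos
    have h2 : Tendsto (fun s : ℕ => ((3 * s : ℕ) : ℝ)) atTop atTop :=
      tendsto_natCast_atTop_atTop.comp (tendsto_id.const_mul_atTop' (by norm_num))
    exact h1.comp h2
  obtain ⟨s, h1, h2, h3⟩ := ((lower' d hd).and ((hlim.eventually_gt_atTop (2 ^ d * K)).and
    (eventually_ge_atTop (N + 1)))).exists
  have hn : 1 ≤ 3 * s := by omega
  have h4 := hK (3 * s) (by omega)
  rw [← hedef] at h1
  set n := 3 * s
  set B : ℝ := ((3 : ℝ) ^ ((1 : ℝ) / 3)) ^ n ^ d with hB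
  have hB0 : 0 < B := by positivity
  have hn0 : (0 : ℝ) < n := by exact_mod_cast hn
  have hnC : (0 : ℝ) < (n : ℝ) ^ C := Real.rpow_pos_of_pos hn0 _
  have h5 : (n : ℝ) ^ e = (n : ℝ) ^ ((e : ℝ) - C) * (n : ℝ) ^ C := by
    rw [← Real.rpow_add hn0, sub_add_cancel, Real.rpow_natCast]
  rw [h5] at h1
  have h6 : 2 ^ d * (t n d : ℝ) ≤ 2 ^ d * (K * (n : ℝ) ^ C * B) :=
    mul_le_mul_of_nonneg_left h4 (by positivity)
  have h7 : (n : ℝ) ^ ((e : ℝ) - C) * ((n : ℝ) ^ C * B) ≤ 2 ^ d * K * ((n : ℝ) ^ C * B) := by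
    calc (n : ℝ) ^ ((e : ℝ) - C) * ((n : ℝ) ^ C * B) = (n : ℝ) ^ ((e : ℝ) - C) * (n : ℝ) ^ C * B := by ring
      _ ≤ _ := h1.trans h6
      _ = _ := by ring
  have h8 := le_of_mul_le_mul_right h7 (by positivity)
  linarith

end asymptotics

/-- (1) For every `d ≥ 1` and all large `s`, `t_{n,d} ≥ 2^(-d) n^(d(d-1)/2) (3^(1/3))^(n^d)` for
`n = 3 s`.
(2) So for every `d ≥ 1` and every real `C < d (d - 1) / 2` it is false that
`t_{n,d} = O(n^C (3^(1/3))^(n^d))`.
(3) In particular, the answer to Q2: for every `d ≥ 3` it is false that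
`t_{n,d} = O(n^(d-1) (3^(1/3))^(n^d))`. -/
theorem result :
    (∀ d : ℕ, 1 ≤ d → ∃ s₀ : ℕ, ∀ s : ℕ, s₀ ≤ s →
      ((3 * s : ℕ) : ℝ) ^ (d * (d - 1) / 2) * ((3 : ℝ) ^ ((1 : ℝ) / 3)) ^ (3 * s) ^ d ≤
        2 ^ d * t (3 * s) d) ∧
    (∀ d : ℕ, 1 ≤ d → ∀ C : ℝ, C < d * (d - 1) / 2 → ¬ ∃ (K : ℝ) (N : ℕ), ∀ n : ℕ, N ≤ n →
      (t n d : ℝ) ≤ K * (n : ℝ) ^ C * ((3 : ℝ) ^ ((1 : ℝ) / 3)) ^ n ^ d) ∧
    (∀ d : ℕ, 3 ≤ d → ¬ ∃ (K : ℝ) (N : ℕ), ∀ n : ℕ, N ≤ n →
      (t n d : ℝ) ≤ K * (n : ℝ) ^ (d - 1) * ((3 : ℝ) ^ ((1 : ℝ) / 3)) ^ n ^ d) := by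
  refine ⟨fun d hd => Filter.eventually_atTop.1 (lower' d hd), not_bound, fun d hd h => ?_⟩
  have hd' : (3 : ℝ) ≤ d := by exact_mod_cast hd
  apply not_bound d (by omega) ((d - 1 : ℕ) : ℝ) (by
    rw [Nat.cast_sub (by omega)]
    push_cast
    nlinarith)
  obtain ⟨K, N, hK⟩ := h
  refine ⟨K, N, fun n hn => ?_⟩
  rw [Real.rpow_natCast]
  exact hK n hn

end Pool.Agent.Results.MP_13da68_co.ShearedLatticesH15
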